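import Pool.Agent.W810.KP.Defs

/-!
Common lemmas for the limits of averages: monotonicity in the box and translation invariance of
the probability of `Con e`, and counting edges of rectangles.
-/

namespace W371.KP

open H974 H12S H973N Finset Pool.Agent.W810.KP

theorem ok_q {q : ℝ} (h0 : 0 ≤ q) (h1 : q ≤ 1) : Ok (fun _ : Edg => q) := fun _ => ⟨h0, h1⟩

/-- `Con e` is increasing. -/
theorem Con_mono {e : Edg} {F G : Finset Edg} (h : F ⊆ G) (hF : Con e F) : Con e G := by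
  refine Reach.mono ?_ hF
  intro x hx
  exact Finset.erase_subset_erase e h hx

/-- Probabilities of `Con e` are increasing in the box. -/
theorem PQ_mono_S {q : ℝ} (h0 : 0 ≤ q) (h1 : q ≤ 1) {S S' : Finset Edg} (h : S ⊆ S') (e : Edg) :
    PQ q S (Con e) ≤ PQ q S' (Con e) := by
  have e1 : PQ q S (Con e) = PQ q S (fun F => Con e (F ∩ S)) :=
    Pr_congr (fun F hF => by rw [Finset.inter_eq_left.mpr hF])
  have e2 : PQ q S' (fun F => Con e (F ∩ S)) = PQ q S (fun F => Con e (F ∩ S)) :=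
    Pr_local h (fun F _ => by rw [Finset.inter_assoc, Finset.inter_self])
  rw [e1, ← e2]
  exact Pr_mono (ok_q h0 h1) (fun F _ hF => Con_mono Finset.inter_subset_left hF)

theorem Con_sym (g : LSym) (e : Edg) (F : Finset Edg) : Con (g.φ e) (g.mp F) ↔ Con e F := by
  have h1 : (↑((g.mp F).erase (g.φ e)) : Set Edg) = g.φ '' (↑(F.erase e) : Set Edg) := by
    rw [← LSym.coe_mp]
    congr 1
    ext x
    simp only [Finset.mem_erase, LSym.mem_mp]
    constructor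
    · rintro ⟨h2, h3⟩
      exact ⟨fun h => h2 (by rw [← h]; simp), h3⟩
    · rintro ⟨h2, h3⟩
      exact ⟨fun h => h2 (by rw [h]; simp), h3⟩
  unfold Pool.Agent.W810.KP.Con
  rw [h1]
  rcases g.compat e with ⟨h2, h3⟩ | ⟨h2, h3⟩
  · rw [h2, h3]
    exact g.reach_iff
  · rw [h2, h3]
    constructor
    · intro h
      exact (g.reach_iff.mp h).symm
    · intro h
      exact g.reach_iff.mpr h.symm

/-- Invariance under symmetries of the lattice. -/
theorem PQ_sym (g : LSym) (q : ℝ) (S : Finset Edg) (e : Edg) :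
    PQ q (g.mp S) (Con (g.φ e)) = PQ q S (Con e) := by
  show Pr _ _ _ = _
  rw [g.pr]
  exact Pr_congr (fun F _ => Con_sym g e F)

/-- Translation invariance. -/
theorem PQ_trl (q : ℝ) (s t a b c d x y : ℤ) (v : Bool) :
    PQ q (RE (a + s) (b + s) (c + t) (d + t)) (Con (x + s, y + t, v)) =
      PQ q (RE a b c d) (Con (x, y, v)) := by
  rw [← trl_RE, ← trl_φ, PQ_sym]

theorem PQ_trl0 (q : ℝ) (x y : ℤ) (m : ℕ) (v : Bool) :
    PQ q (RE (x - m) (x + m) (y - m) (y + m)) (Con (x, y, v)) = PQ q (boxE m) (Con (e0 v)) := by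
  have h := PQ_trl q x y (-m) m (-m) m 0 0 v
  rw [zero_add, zero_add] at h
  rw [boxE]
  show _ = PQ q (RE (-m) m (-m) m) (Con (0, 0, v))
  rw [← h]
  congr 2 <;> ring

theorem PQ_le_one {q : ℝ} (h0 : 0 ≤ q) (h1 : q ≤ 1) (S : Finset Edg) (A : Finset Edg → Prop) :
    PQ q S A ≤ 1 := Pr_le_one (ok_q h0 h1) S A

theorem PQ_nonneg {q : ℝ} (h0 : 0 ≤ q) (h1 : q ≤ 1) (S : Finset Edg) (A : Finset Edg → Prop) :
    0 ≤ PQ q S A := Pr_nonneg (ok_q h0 h1) S A

theorem RE_sub {a b c d a' b' c' d' : ℤ} (h1 : a' ≤ a) (h2 : b ≤ b') (h3 : c' ≤ c)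
    (h4 : d ≤ d') : RE a b c d ⊆ RE a' b' c' d' := by
  rintro ⟨x, y, _ | _⟩ h
  · simp only [mem_RE_false] at h ⊢; omega
  · simp only [mem_RE_true] at h ⊢; omega

theorem bdd {q : ℝ} (h0 : 0 ≤ q) (h1 : q ≤ 1) (v : Bool) :
    BddAbove (Set.range (fun n : ℕ => PQ q (boxE n) (Con (e0 v)))) :=
  ⟨1, by rintro _ ⟨n, rfl⟩; exact PQ_le_one h0 h1 _ _⟩

theorem box_mono {m n : ℕ} (h : m ≤ n) : boxE m ⊆ boxE n := by
  unfold boxE
  apply RE_sub <;> omega

theorem mono_n {q : ℝ} (h0 : 0 ≤ q) (h1 : q ≤ 1) (v : Bool) :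
    Monotone (fun n : ℕ => PQ q (boxE n) (Con (e0 v))) :=
  fun _ _ h => PQ_mono_S h0 h1 (box_mono h) _

theorem le_gb {q : ℝ} (h0 : 0 ≤ q) (h1 : q ≤ 1) (v : Bool) (n : ℕ) :
    PQ q (boxE n) (Con (e0 v)) ≤ gb v q := le_ciSup (bdd h0 h1 v) n

theorem tendsto_gb {q : ℝ} (h0 : 0 ≤ q) (h1 : q ≤ 1) (v : Bool) :
    Filter.Tendsto (fun n : ℕ => PQ q (boxE n) (Con (e0 v))) Filter.atTop (nhds (gb v q)) :=
  tendsto_atTop_ciSup (mono_n h0 h1 v) (bdd h0 h1 v)

theorem gb_nonneg {q : ℝ} (h0 : 0 ≤ q) (h1 : q ≤ 1) (v : Bool) : 0 ≤ gb v q :=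
  (PQ_nonneg h0 h1 _ _).trans (le_gb h0 h1 v 0)

theorem gb_le_one {q : ℝ} (h0 : 0 ≤ q) (h1 : q ≤ 1) (v : Bool) : gb v q ≤ 1 :=
  ciSup_le (fun _ => PQ_le_one h0 h1 _ _)

/-- Any rectangle gives at most the infinite volume value. -/
theorem le_gb_RE {q : ℝ} (h0 : 0 ≤ q) (h1 : q ≤ 1) (a b c d x y : ℤ) (v : Bool) :
    PQ q (RE a b c d) (Con (x, y, v)) ≤ gb v q := by
  set m : ℕ := (|x - a| + |b - x| + |y - c| + |d - y|).toNat with hm
  have hm' : (m : ℤ) = |x - a| + |b - x| + |y - c| + |d - y| := by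
    rw [hm]; exact Int.toNat_of_nonneg (by positivity)
  have h2 : RE a b c d ⊆ RE (x - m) (x + m) (y - m) (y + m) := by
    have := le_abs_self (x - a); have := le_abs_self (b - x)
    have := le_abs_self (y - c); have := le_abs_self (d - y)
    have := abs_nonneg (x - a); have := abs_nonneg (b - x)
    have := abs_nonneg (y - c); have := abs_nonneg (d - y)
    apply RE_sub <;> omega
  refine (PQ_mono_S h0 h1 h2 _).trans ?_
  rw [PQ_trl0]
  exact le_gb h0 h1 v m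

/-- A rectangle which contains the ball of radius `m`. -/
theorem ge_RE {q : ℝ} (h0 : 0 ≤ q) (h1 : q ≤ 1) {a b c d x y : ℤ} {m : ℕ} (v : Bool)
    (ha : a ≤ x - m) (hb : x + m ≤ b) (hc : c ≤ y - m) (hd : y + m ≤ d) :
    PQ q (boxE m) (Con (e0 v)) ≤ PQ q (RE a b c d) (Con (x, y, v)) := by
  rw [← PQ_trl0 q x y m v]
  exact PQ_mono_S h0 h1 (RE_sub ha hb hc hd) _

theorem RE_eq (a b c d : ℤ) : RE a b c d =
    ((Finset.Ico a b ×ˢ Finset.Icc c d).image (fun p => ((p.1, p.2, true) : Edg))) ∪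
    ((Finset.Icc a b ×ˢ Finset.Ico c d).image (fun p => ((p.1, p.2, false) : Edg))) := by
  ext ⟨x, y, _ | _⟩
  · simp only [mem_RE_false, Finset.mem_union, Finset.mem_image, Finset.mem_product,
      Finset.mem_Ico, Finset.mem_Icc, Prod.mk.injEq, Prod.exists]
    constructor
    · rintro ⟨h1, h2, h3, h4⟩
      exact Or.inr ⟨x, y, ⟨⟨h1, h2⟩, h3, h4⟩, rfl, rfl, trivial⟩
    · rintro (⟨x', y', h, h1, h2, h3⟩ | ⟨x', y', h, h1, h2, h3⟩)
      · exact absurd h3 (by simp)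
      · subst h1; subst h2; exact ⟨h.1.1, h.1.2, h.2.1, h.2.2⟩
  · simp only [mem_RE_true, Finset.mem_union, Finset.mem_image, Finset.mem_product,
      Finset.mem_Ico, Finset.mem_Icc, Prod.mk.injEq, Prod.exists]
    constructor
    · rintro ⟨h1, h2, h3, h4⟩
      exact Or.inl ⟨x, y, ⟨⟨h1, h2⟩, h3, h4⟩, rfl, rfl, trivial⟩
    · rintro (⟨x', y', h, h1, h2, h3⟩ | ⟨x', y', h, h1, h2, h3⟩)
      · subst h1; subst h2; exact ⟨h.1.1, h.1.2, h.2.1, h.2.2⟩
      · exact absurd h3 (by simp)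

/-- Sum of a function of the direction over the edges of a rectangle. -/
theorem sum_dir {a b c d : ℤ} (hab : a ≤ b) (hcd : c ≤ d) (h : Bool → ℝ) :
    ∑ e ∈ RE a b c d, h e.2.2 =
      ((b:ℝ) - a) * ((d:ℝ) - c + 1) * h true + ((b:ℝ) - a + 1) * ((d:ℝ) - c) * h false := by
  rw [RE_eq, Finset.sum_union, Finset.sum_image, Finset.sum_image]
  · simp only [Finset.sum_const, Finset.card_product, Int.card_Ico, Int.card_Icc, nsmul_eq_mul,
      Nat.cast_mul]
    have e1 : (((b - a).toNat : ℕ) : ℝ) = (b:ℝ) - a := by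
      have : (((b - a).toNat : ℕ) : ℤ) = b - a := Int.toNat_of_nonneg (by omega)
      exact_mod_cast this
    have e2 : (((d - c).toNat : ℕ) : ℝ) = (d:ℝ) - c := by
      have : (((d - c).toNat : ℕ) : ℤ) = d - c := Int.toNat_of_nonneg (by omega)
      exact_mod_cast this
    have e3 : (((b + 1 - a).toNat : ℕ) : ℝ) = (b:ℝ) - a + 1 := by
      have : (((b + 1 - a).toNat : ℕ) : ℤ) = b - a + 1 := by
        rw [Int.toNat_of_nonneg (by omega)]; ring
      exact_mod_cast this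
    have e4 : (((d + 1 - c).toNat : ℕ) : ℝ) = (d:ℝ) - c + 1 := by
      have : (((d + 1 - c).toNat : ℕ) : ℤ) = d - c + 1 := by
        rw [Int.toNat_of_nonneg (by omega)]; ring
      exact_mod_cast this
    rw [e1, e2, e3, e4]
  · rintro ⟨x, y⟩ _ ⟨x', y'⟩ _ h
    simpa using h
  · rintro ⟨x, y⟩ _ ⟨x', y'⟩ _ h
    simpa using h
  · rw [Finset.disjoint_left]
    intro e he he'
    simp only [Finset.mem_image] at he he'
    obtain ⟨p, _, rfl⟩ := he
    obtain ⟨p', _, h⟩ := he'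
    simp at h

theorem card_RE {a b c d : ℤ} (hab : a ≤ b) (hcd : c ≤ d) :
    ((RE a b c d).card : ℝ) =
      ((b:ℝ) - a) * ((d:ℝ) - c + 1) + ((b:ℝ) - a + 1) * ((d:ℝ) - c) := by
  have h := sum_dir hab hcd (fun _ => 1)
  simp only [Finset.sum_const, nsmul_eq_mul, mul_one] at h
  exact h

end W371.KP
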