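import Pool.Agent.W371.KP.Com

/-!
LIM: averages over the inner box converge to the infinite volume value.
-/

namespace W371.KPLim

open H974 H12S H973N Finset Pool.Agent.W810.KP W371.KP Filter

theorem main : Pool.Agent.W810.KP.S_lim := by
  intro q h0 h1
  have hm4 : Tendsto (fun M : ℕ => M / 4) atTop atTop :=
    Nat.tendsto_div_const_atTop (by norm_num)
  have ht := (tendsto_gb h0 h1 true).comp hm4
  have hf := (tendsto_gb h0 h1 false).comp hm4
  have hlow : Tendsto (fun M : ℕ => (PQ q (boxE (M / 4)) (Con (e0 true)) +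
      PQ q (boxE (M / 4)) (Con (e0 false))) / 2) atTop (nhds (gg q)) :=
    (ht.add hf).div_const 2
  refine tendsto_of_tendsto_of_tendsto_of_le_of_le' hlow tendsto_const_nhds ?_ ?_
  · filter_upwards [eventually_ge_atTop 4] with M hM
    set m : ℕ := M / 4 * 2 with hm
    have hm1 : 1 ≤ m := by omega
    have hmR : (1:ℝ) ≤ m := by exact_mod_cast hm1
    have hcard : ((boxE m).card : ℝ) = 2 * (2 * m * (2 * m + 1)) := by
      unfold boxE
      rw [card_RE (by omega) (by omega)]
      push_cast; ring
    have hpos : (0:ℝ) < (boxE m).card := by rw [hcard]; positivity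
    rw [le_div_iff₀ hpos]
    have hs := sum_dir (a := -m) (b := m) (c := -m) (d := m) (by omega) (by omega)
      (fun v => PQ q (boxE (M / 4)) (Con (e0 v)))
    have hle : ∑ e ∈ RE (-m) m (-m) m, PQ q (boxE (M / 4)) (Con (e0 e.2.2)) ≤
        ∑ e ∈ boxE m, PQ q (boxE M) (Con e) := by
      apply Finset.sum_le_sum
      rintro ⟨x, y, v⟩ he
      have hx : -(m:ℤ) ≤ x ∧ x ≤ m ∧ -(m:ℤ) ≤ y ∧ y ≤ m := by
        cases v
        · simp only [mem_RE_false] at he; omega
        · simp only [mem_RE_true] at he; omega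
      exact ge_RE h0 h1 v (by omega) (by omega) (by omega) (by omega)
    refine le_trans (le_of_eq ?_) hle
    rw [hs, hcard]
    push_cast; ring
  · filter_upwards [eventually_ge_atTop 4] with M hM
    set m : ℕ := M / 4 * 2 with hm
    have hm1 : 1 ≤ m := by omega
    have hmR : (1:ℝ) ≤ m := by exact_mod_cast hm1
    have hcard : ((boxE m).card : ℝ) = 2 * (2 * m * (2 * m + 1)) := by
      unfold boxE
      rw [card_RE (by omega) (by omega)]
      push_cast; ring
    have hpos : (0:ℝ) < (boxE m).card := by rw [hcard]; positivity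
    rw [div_le_iff₀ hpos]
    have hs := sum_dir (a := -m) (b := m) (c := -m) (d := m) (by omega) (by omega)
      (fun v => gb v q)
    have hle : ∑ e ∈ boxE m, PQ q (boxE M) (Con e) ≤ ∑ e ∈ RE (-m) m (-m) m, gb e.2.2 q := by
      apply Finset.sum_le_sum
      rintro ⟨x, y, v⟩ _
      exact le_gb_RE h0 h1 _ _ _ _ x y v
    refine hle.trans (le_of_eq ?_)
    rw [hs, hcard, gg]
    push_cast; ring

end W371.KPLim
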