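import Pool.Agent.W371.KP.Com

/-!
LIMB: averages over the whole box converge to the infinite volume value.
-/

namespace W371.KPLimb

open H974 H12S H973N Finset Pool.Agent.W810.KP W371.KP Filter

theorem sqrt_tendsto : Tendsto (fun n : ℕ => Nat.sqrt n) atTop atTop := by
  rw [tendsto_atTop_atTop]
  intro b
  exact ⟨b * b, fun a ha => Nat.le_sqrt.mpr ha⟩

theorem frac_tendsto : Tendsto (fun n : ℕ => ((Nat.sqrt n : ℕ) : ℝ) / n) atTop (nhds 0) := by
  have h1 : Tendsto (fun n : ℕ => (((Nat.sqrt n : ℕ) : ℝ))⁻¹) atTop (nhds 0) :=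
    tendsto_inv_atTop_zero.comp (tendsto_natCast_atTop_atTop.comp sqrt_tendsto)
  refine squeeze_zero' ?_ ?_ h1
  · filter_upwards with n
    positivity
  · filter_upwards [eventually_ge_atTop 1] with n hn
    have hs : 1 ≤ Nat.sqrt n := Nat.le_sqrt.mpr (by simpa using hn)
    have hs' : (0:ℝ) < (Nat.sqrt n : ℕ) := by exact_mod_cast hs
    have hn' : (0:ℝ) < (n : ℕ) := by exact_mod_cast hn
    have h2 : ((Nat.sqrt n : ℕ) : ℝ) * (Nat.sqrt n : ℕ) ≤ n := by exact_mod_cast Nat.sqrt_le n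
    rw [div_le_iff₀ hn', inv_mul_eq_div, le_div_iff₀ hs']
    exact h2

theorem main : Pool.Agent.W810.KP.S_limb := by
  intro q h0 h1
  have ht := (tendsto_gb h0 h1 true).comp sqrt_tendsto
  have hf := (tendsto_gb h0 h1 false).comp sqrt_tendsto
  have hc1 : Tendsto (fun n : ℕ => (1 - 1 / (n:ℝ) - 2 * (((Nat.sqrt n : ℕ) : ℝ) / n))) atTop
      (nhds (1 - 0 - 2 * 0)) :=
    (tendsto_const_nhds.sub tendsto_one_div_atTop_nhds_zero_nat).sub
      (frac_tendsto.const_mul 2)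
  have hc2 : Tendsto (fun n : ℕ => (1 - 2 * (((Nat.sqrt n : ℕ) : ℝ) / n))) atTop
      (nhds (1 - 2 * 0)) := tendsto_const_nhds.sub (frac_tendsto.const_mul 2)
  have hlow : Tendsto (fun n : ℕ => (1 - 1 / (n:ℝ) - 2 * (((Nat.sqrt n : ℕ) : ℝ) / n)) *
      (1 - 2 * (((Nat.sqrt n : ℕ) : ℝ) / n)) * (PQ q (boxE (Nat.sqrt n)) (Con (e0 true)) +
      PQ q (boxE (Nat.sqrt n)) (Con (e0 false)))) atTop (nhds (2 * gg q)) := by
    have := (hc1.mul hc2).mul (ht.add hf)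
    have e : (1 - 0 - 2 * 0) * (1 - 2 * 0) * (gb true q + gb false q) = 2 * gg q := by
      rw [gg]; ring
    rw [e] at this
    exact this
  refine tendsto_of_tendsto_of_tendsto_of_le_of_le' hlow tendsto_const_nhds ?_ ?_
  · filter_upwards [eventually_ge_atTop 9] with n hn
    set m : ℕ := Nat.sqrt n with hm
    have hmm : m * m ≤ n := Nat.sqrt_le n
    have hm3 : 3 ≤ m := Nat.le_sqrt.mpr (by omega)
    have h2m : 2 * m + 1 ≤ n := by nlinarith
    have hnR : (0:ℝ) < n := by exact_mod_cast (by omega : 0 < n)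
    rw [le_div_iff₀ (by positivity)]
    have hs := sum_dir (a := m) (b := (n:ℤ) - 1 - m) (c := m) (d := (n:ℤ) - 1 - m) (by omega)
      (by omega) (fun v => PQ q (boxE m) (Con (e0 v)))
    have hsub : RE m ((n:ℤ) - 1 - m) m ((n:ℤ) - 1 - m) ⊆ RE 0 ((n:ℤ) - 1) 0 ((n:ℤ) - 1) := by
      apply RE_sub <;> omega
    have hle : ∑ e ∈ RE m ((n:ℤ) - 1 - m) m ((n:ℤ) - 1 - m), PQ q (boxE m) (Con (e0 e.2.2)) ≤
        ∑ e ∈ RE 0 ((n:ℤ) - 1) 0 ((n:ℤ) - 1),
          PQ q (RE 0 ((n:ℤ) - 1) 0 ((n:ℤ) - 1)) (Con e) := by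
      refine le_trans (Finset.sum_le_sum ?_) (Finset.sum_le_sum_of_subset_of_nonneg hsub
        (fun _ _ _ => PQ_nonneg h0 h1 _ _))
      rintro ⟨x, y, v⟩ he
      have hx : (m:ℤ) ≤ x ∧ x ≤ (n:ℤ) - 1 - m ∧ (m:ℤ) ≤ y ∧ y ≤ (n:ℤ) - 1 - m := by
        cases v
        · simp only [mem_RE_false] at he; omega
        · simp only [mem_RE_true] at he; omega
      exact ge_RE h0 h1 v (by omega) (by omega) (by omega) (by omega)
    refine le_trans (le_of_eq ?_) hle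
    rw [hs]
    push_cast
    field_simp
    ring
  · filter_upwards [eventually_ge_atTop 1] with n hn
    have hnR : (1:ℝ) ≤ n := by exact_mod_cast hn
    rw [div_le_iff₀ (by positivity)]
    have hs := sum_dir (a := 0) (b := (n:ℤ) - 1) (c := 0) (d := (n:ℤ) - 1) (by omega)
      (by omega) (fun v => gb v q)
    have hle : ∑ e ∈ RE 0 ((n:ℤ) - 1) 0 ((n:ℤ) - 1),
          PQ q (RE 0 ((n:ℤ) - 1) 0 ((n:ℤ) - 1)) (Con e) ≤
        ∑ e ∈ RE 0 ((n:ℤ) - 1) 0 ((n:ℤ) - 1), gb e.2.2 q := by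
      apply Finset.sum_le_sum
      rintro ⟨x, y, v⟩ _
      exact le_gb_RE h0 h1 _ _ _ _ x y v
    refine hle.trans ?_
    rw [hs, gg]
    push_cast
    have g1 := gb_nonneg h0 h1 true
    have g2 := gb_nonneg h0 h1 false
    have g3 : 0 ≤ (n:ℝ) * gb true q := by positivity
    have g4 : 0 ≤ (n:ℝ) * gb false q := by positivity
    nlinarith

end W371.KPLimb
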